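import Mathlib

set_option autoImplicit false

open Filter Topology Set
open scoped ENNReal Nat

namespace Pool.Agent.H.MP_94b2f9_an

theorem bb {S : Type*} (R : S → S → Prop) (h0 : ∀ a, R a a)
    (h1 : ∀ a b c, R a b → R b c → R a c) (f : S → ℝ) (a : S) (B : ℝ) (h2 : ∀ b, R a b → f b ≤ B)
    (h3 : ∀ x : ℕ → S, R a (x 0) → (∀ n, R (x n) (x (n + 1))) → ∃ y, ∀ n, R (x n) y)
    (h4 : ∀ b c, R a b → R b c → f b ≤ f c) : ∃ m, R a m ∧ ∀ b, R m b → f b ≤ f m := by
  have step : ∀ (n : ℕ) (b : {b // R a b}), ∃ c : {b // R a b}, R b c ∧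
      ∀ d, R b d → f d ≤ f c + 1 / (n + 1) := fun n b => by
    obtain ⟨_, ⟨c, hc, rfl⟩, h⟩ := Real.add_neg_lt_sSup (s := f '' {d | R b d})
      ⟨_, b, h0 _, rfl⟩ (neg_neg_of_pos (Nat.one_div_pos_of_nat (n := n)))
    refine ⟨⟨c, h1 _ _ _ b.2 hc⟩, hc, fun d hd => ?_⟩
    have := le_csSup (s := f '' {d | R b d}) ⟨B, by
      rintro _ ⟨e, he, rfl⟩; exact h2 e (h1 _ _ _ b.2 he)⟩ ⟨d, hd, rfl⟩
    simp only; linarith
  choose F h5 h6 using step
  let x : ℕ → {b // R a b} := fun n => Nat.rec ⟨a, h0 a⟩ F n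
  obtain ⟨y, hy⟩ := h3 (fun n => (x n).1) (h0 a) fun n => h5 n (x n)
  refine ⟨y, hy 0, fun b hb => le_of_forall_pos_le_add fun ε hε => ?_⟩
  obtain ⟨n, hn⟩ := exists_nat_one_div_lt hε
  have := h6 n (x n) b (h1 _ _ _ (hy n) hb)
  have := h4 _ y (x (n + 1)).2 (hy (n + 1))
  change f (F n (x n)) ≤ f y at this
  linarith

theorem signs (a : ℕ → ℕ → ℝ) (S : Finset ℕ) : ∃ ε : ℕ → ℝ, (∀ i, |ε i| = 1) ∧
    ∑ n ∈ S, a n n ≤ ∑ n ∈ S, ∑ m ∈ S, ε n * ε m * a m n := by
  classical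
  induction S using Finset.induction_on with
  | empty => exact ⟨fun _ => 1, by simp, by simp⟩
  | insert k S hk ih =>
    obtain ⟨ε, h1, h2⟩ := ih
    obtain ⟨s, h3, h4⟩ : ∃ s : ℝ, (s = 1 ∨ s = -1) ∧ 0 ≤ s * ∑ m ∈ S, ε m * (a m k + a k m) := by
      rcases le_total 0 (∑ m ∈ S, ε m * (a m k + a k m)) with h | h
      · exact ⟨1, .inl rfl, by simpa using h⟩
      · exact ⟨-1, .inr rfl, by simpa using h⟩
    have h5 : ∀ m ∈ S, Function.update ε k s m = ε m := fun m hm =>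
      Function.update_of_ne (by rintro rfl; exact hk hm) _ _
    refine ⟨Function.update ε k s, fun i => ?_, ?_⟩
    · rw [Function.update_apply]
      split_ifs
      · rcases h3 with rfl | rfl <;> simp
      · exact h1 i
    · simp only [Finset.sum_insert hk, Function.update_self, Finset.sum_add_distrib]
      simp only [h5, Finset.sum_congr rfl fun m hm => congrArg (fun t => s * t * a m k) (h5 m hm),
        Finset.sum_congr rfl fun m hm => congrArg (fun t => t * s * a k m) (h5 m hm)]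
      rw [Finset.sum_congr rfl (g := fun n => ∑ m ∈ S, ε n * ε m * a m n) (f := fun n => ∑ m ∈ S,
        Function.update ε k s n * Function.update ε k s m * a m n) fun n hn =>
          Finset.sum_congr rfl fun m hm => by rw [h5 m hm, h5 n hn]]
      have h6 : s * s = 1 := by rcases h3 with rfl | rfl <;> simp
      have h7 : s * ∑ m ∈ S, ε m * (a m k + a k m) =
          ∑ m ∈ S, s * ε m * a m k + ∑ n ∈ S, ε n * s * a k n := by
        rw [Finset.mul_sum, ← Finset.sum_add_distrib]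
        exact Finset.sum_congr rfl fun _ _ => by ring
      rw [h6]; linarith

theorem taylor {E F : Type*} [NormedAddCommGroup E] [NormedSpace ℝ E] [NormedAddCommGroup F]
    [NormedSpace ℝ F] [CompleteSpace F] {f : E → F} (hf : ContDiff ℝ (⊤ : ℕ∞) f) (x : E) (q : ℕ) :
    ∃ C r : ℝ, 0 ≤ C ∧ 0 < r ∧ ∀ h, ‖h‖ ≤ r → ‖f (x + h) - ∑ k ∈ Finset.range (q + 1),
      (k ! : ℝ)⁻¹ • iteratedFDeriv ℝ k f x fun _ => h‖ ≤ C * ‖h‖ ^ (q + 1) := by
  have h1 := (hf.continuous_iteratedFDeriv (m := q + 1) (by exact_mod_cast le_top)).norm.tendsto x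
  obtain ⟨r, hr, h2⟩ := Metric.eventually_nhds_iff.1 (h1.eventually (gt_mem_nhds (lt_add_one _)))
  refine ⟨‖iteratedFDeriv ℝ (q + 1) f x‖ + 1, r / 2, by positivity, by positivity, fun h hh => ?_⟩
  rw [map_add_eq_sum_add_integral_iteratedFDeriv (n := q) fun t _ =>
    (hf.of_le (by exact_mod_cast le_top)).contDiffAt, add_sub_cancel_left, norm_smul]
  have h3 := intervalIntegral.norm_integral_le_of_norm_le_const (a := 0) (b := 1)
    (C := (‖iteratedFDeriv ℝ (q + 1) f x‖ + 1) * ‖h‖ ^ (q + 1))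
    (f := fun t : ℝ => (1 - t) ^ q • iteratedFDeriv ℝ (q + 1) f (x + t • h) fun _ => h)
    fun t ht => by
      rw [uIoc_of_le zero_le_one] at ht
      have h4 := h2 (y := x + t • h) (by
        rw [dist_eq_norm, add_sub_cancel_left, norm_smul, Real.norm_of_nonneg ht.1.le]
        nlinarith [norm_nonneg h, ht.2])
      have h5 := (iteratedFDeriv ℝ (q + 1) f (x + t • h)).le_opNorm fun _ => h
      rw [Finset.prod_const, Finset.card_univ, Fintype.card_fin] at h5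
      have h6 : ‖(1 - t) ^ q‖ ≤ 1 := by
        rw [norm_pow, Real.norm_of_nonneg (by linarith [ht.2])]
        exact pow_le_one₀ (by linarith [ht.2]) (by linarith [ht.1])
      rw [norm_smul]
      refine (mul_le_of_le_one_left (norm_nonneg _) h6).trans (h5.trans ?_)
      gcongr
  have h4 : ‖(q ! : ℝ)⁻¹‖ ≤ 1 := by
    rw [Real.norm_of_nonneg (by positivity)]
    exact inv_le_one_of_one_le₀ (by exact_mod_cast q.factorial_pos)
  simpa using (mul_le_of_le_one_left (norm_nonneg _) h4).trans h3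

variable {p : ℝ≥0∞} [Fact (1 ≤ p)]

abbrev X (p : ℝ≥0∞) := lp (fun _ : ℕ => ℝ) p

noncomputable def e (p : ℝ≥0∞) (n : ℕ) : X p := lp.single p n 1

theorem p_one (hp : p ≠ ⊤) : 1 ≤ p.toReal := by
  simpa using ENNReal.toReal_mono hp (Fact.out : 1 ≤ p)

theorem norm_e (n : ℕ) : ‖e p n‖ = 1 := by
  rw [e, lp.norm_single (zero_lt_one.trans_le Fact.out), norm_one]

theorem norm_sum (hp : p ≠ ⊤) (S : Finset ℕ) (ε : ℕ → ℝ) (h : ∀ i, |ε i| = 1) :
    ‖∑ i ∈ S, ε i • e p i‖ = (S.card : ℝ) ^ (1 / p.toReal) := by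
  have h0 := zero_lt_one.trans_le (p_one hp)
  have := lp.norm_sum_single (E := fun _ : ℕ => ℝ) h0 ε S
  simp only [Real.norm_eq_abs, h, Real.one_rpow, Finset.sum_const, nsmul_eq_mul, mul_one] at this
  rw [← this, one_div, Real.rpow_rpow_inv (norm_nonneg _) h0.ne']
  simp only [e, ← lp.single_smul, smul_eq_mul, mul_one]

theorem diag (hp : p ≠ ⊤) (S : Finset ℕ) (j : ℕ) : ∀ (A : (X p) [×(j + 1)]→L[ℝ] ℝ) (s : ℕ → ℝ),
    (∀ i, |s i| = 1) → ∑ n ∈ S, s n * A (fun _ => e p n) ≤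
      ‖A‖ * ((S.card : ℝ) ^ (1 / p.toReal)) ^ (j + 1) := by
  induction j with
  | zero =>
    intro A s hs
    have h1 := (continuousMultilinearCurryFin1 ℝ (X p) ℝ A).le_opNorm (∑ i ∈ S, s i • e p i)
    rw [norm_sum hp S s hs, LinearIsometryEquiv.norm_map, map_sum] at h1
    simp only [map_smul, smul_eq_mul, continuousMultilinearCurryFin1_apply] at h1
    rw [show ∀ x : ℝ, x ^ (0 + 1) = x from pow_one]
    refine le_trans (le_of_eq ?_) ((le_abs_self _).trans h1)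
    refine Finset.sum_congr rfl fun n _ => ?_
    congr 2
  | succ j ih =>
    intro A s hs
    obtain ⟨ε, h1, h2⟩ := signs (fun m n => s n * A.curryLeft (e p m) fun _ => e p n) S
    have h3 := ih (A.curryLeft (∑ i ∈ S, ε i • e p i)) (fun n => s n * ε n)
      fun i => by rw [abs_mul, hs, h1, one_mul]
    have h4 := A.curryLeft.le_opNorm (∑ i ∈ S, ε i • e p i)
    rw [norm_sum hp S ε h1, ContinuousMultilinearMap.curryLeft_norm] at h4
    calc _ = ∑ n ∈ S, s n * A.curryLeft (e p n) fun _ => e p n := by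
          refine Finset.sum_congr rfl fun n _ => ?_
          rw [ContinuousMultilinearMap.curryLeft_apply]
          congr 2
          funext i; refine Fin.cases rfl (fun _ => rfl) i
      _ ≤ _ := h2
      _ = ∑ n ∈ S, s n * ε n * A.curryLeft (∑ i ∈ S, ε i • e p i) fun _ => e p n := by
          refine Finset.sum_congr rfl fun n _ => ?_
          rw [map_sum, ContinuousMultilinearMap.sum_apply, Finset.mul_sum]
          refine Finset.sum_congr rfl fun m _ => ?_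
          rw [map_smul, ContinuousMultilinearMap.smul_apply, smul_eq_mul]; ring
      _ ≤ _ := h3
      _ ≤ _ := by rw [pow_succ' _ (j + 1), ← mul_assoc]; gcongr

theorem diag_lim (hp : p ≠ ⊤) (j : ℕ) (hj : (j + 1 : ℕ) < p.toReal)
    (A : (X p) [×(j + 1)]→L[ℝ] ℝ) : Tendsto (fun n => A fun _ => e p n) atTop (𝓝 0) := by
  have h0 := zero_lt_one.trans_le (p_one hp)
  rw [← Nat.cofinite_eq_atTop]
  refine Metric.tendsto_nhds.2 fun ε hε => eventually_cofinite.2 ?_
  by_contra h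
  have h1 : Tendsto (fun N : ℕ => ‖A‖ * (N : ℝ) ^ (-(1 - (j + 1 : ℕ) / p.toReal))) atTop (𝓝 0) := by
    simpa using ((tendsto_rpow_neg_atTop (y := 1 - (j + 1 : ℕ) / p.toReal) (by
      rw [sub_pos, div_lt_one h0]; exact hj)).comp tendsto_natCast_atTop_atTop).const_mul ‖A‖
  obtain ⟨N, h2, h3⟩ := ((h1.eventually (gt_mem_nhds hε)).and (eventually_gt_atTop 0)).exists
  obtain ⟨S, h4, rfl⟩ := Set.Infinite.exists_subset_card_eq h N
  have h5 := diag hp S j A (fun n => if 0 ≤ A fun _ => e p n then 1 else -1)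
    fun i => by split_ifs <;> simp
  have h6 : (S.card : ℝ) * ε ≤ ∑ n ∈ S, (if 0 ≤ A fun _ => e p n then 1 else -1) *
      A fun _ => e p n := by
    rw [← nsmul_eq_mul]
    refine Finset.card_nsmul_le_sum _ _ _ fun n hn => ?_
    have := h4 hn
    simp only [dist_zero_right, not_lt, mem_ofPred_eq, Real.norm_eq_abs] at this
    split_ifs with h7
    · rwa [abs_of_nonneg h7, ← one_mul (A _)] at this
    · rwa [abs_of_neg (not_le.1 h7), ← neg_one_mul] at this
  have h7 : (0 : ℝ) < S.card := by exact_mod_cast h3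
  rw [← Real.rpow_natCast, ← Real.rpow_mul h7.le, show 1 / p.toReal * (j + 1 : ℕ) =
    -(1 - (j + 1 : ℕ) / p.toReal) + 1 by ring, Real.rpow_add h7, Real.rpow_one] at h5
  nlinarith

theorem sub_le (hp : p ≠ ⊤) {u v : X p} (h0 : ∀ i, 0 ≤ u i) (h : ∀ i, u i ≤ v i) :
    ‖v - u‖ ^ p.toReal + ‖u‖ ^ p.toReal ≤ ‖v‖ ^ p.toReal := by
  have h1 := zero_lt_one.trans_le (p_one hp)
  refine hasSum_le (fun i => ?_) ((lp.hasSum_norm h1 (v - u)).add (lp.hasSum_norm h1 u))
    (lp.hasSum_norm h1 v)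
  have := Real.add_rpow_le_rpow_add (sub_nonneg.2 (h i)) (h0 i) (p_one hp)
  rw [sub_add_cancel] at this
  rwa [lp.coeFn_sub, Pi.sub_apply, Real.norm_of_nonneg (sub_nonneg.2 (h i)),
    Real.norm_of_nonneg (h0 i), Real.norm_of_nonneg ((h0 i).trans (h i))]

theorem conv (hp : p ≠ ⊤) (u : ℕ → X p) (h0 : ∀ i, 0 ≤ u 0 i) (h : ∀ n i, u n i ≤ u (n + 1) i)
    (B : ℝ) (hB : ∀ n, ‖u n‖ ^ p.toReal ≤ B) :
    ∃ w, Tendsto u atTop (𝓝 w) ∧ ∀ n i, u n i ≤ w i := by
  have h1 := zero_lt_one.trans_le (p_one hp)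
  have h2 : ∀ i, Monotone fun n => u n i := fun i => monotone_nat_of_le_succ fun n => h n i
  have h3 : ∀ n m, n ≤ m → ‖u m - u n‖ ^ p.toReal + ‖u n‖ ^ p.toReal ≤ ‖u m‖ ^ p.toReal :=
    fun n m hnm => sub_le hp (fun i => (h0 i).trans (h2 i n.zero_le)) fun i => h2 i hnm
  have h4 : Monotone fun n => ‖u n‖ ^ p.toReal := fun n m hnm => by
    have := h3 n m hnm
    have : 0 ≤ ‖u m - u n‖ ^ p.toReal := by positivity
    simp only; linarith
  have h5 : BddAbove (range fun n => ‖u n‖ ^ p.toReal) := ⟨B, by rintro _ ⟨n, rfl⟩; exact hB n⟩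
  have h6 := tendsto_atTop_ciSup h4 h5
  obtain ⟨w, hw⟩ := cauchySeq_tendsto_of_complete (cauchySeq_of_le_tendsto_0' (s := u)
    (fun n => ((⨆ n, ‖u n‖ ^ p.toReal) - ‖u n‖ ^ p.toReal) ^ p.toReal⁻¹) (fun n m hnm => by
      rw [dist_comm, dist_eq_norm, ← Real.rpow_rpow_inv (norm_nonneg (u m - u n)) h1.ne']
      gcongr
      linarith [h3 n m hnm, le_ciSup h5 m]) (by
      have := (h6.const_sub (⨆ n, ‖u n‖ ^ p.toReal)).rpow_const (p := p.toReal⁻¹)
        (.inr (by positivity))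
      rwa [sub_self, Real.zero_rpow (by positivity)] at this))
  exact ⟨w, hw, fun n i => ge_of_tendsto (((lp.evalCLM ℝ _ p i).continuous.tendsto w).comp hw)
    (eventually_atTop.2 ⟨n, fun m hm => h2 i hm⟩)⟩

theorem exLam : ∃ Λ : (X p →L[ℝ] X p) →L[ℝ] ℝ, ∀ T,
    Tendsto (fun n => T (e p n) n) (hyperfilter ℕ) (𝓝 (Λ T)) := by
  have h0 : ∀ (T : X p →L[ℝ] X p) n, ‖T (e p n) n‖ ≤ ‖T‖ := fun T n =>
    (lp.norm_apply_le_norm (zero_lt_one.trans_le Fact.out).ne' _ n).trans (by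
      simpa [norm_e] using T.le_opNorm (e p n))
  have h1 : ∀ T : X p →L[ℝ] X p, ∃ L, ‖L‖ ≤ ‖T‖ ∧
      Tendsto (fun n => T (e p n) n) (hyperfilter ℕ) (𝓝 L) := fun T => by
    obtain ⟨L, h2, h3⟩ := (isCompact_closedBall (0 : ℝ) ‖T‖).ultrafilter_le_nhds'
      ((hyperfilter ℕ).map fun n => T (e p n) n) (mem_map.2 (univ_mem' fun n => by
        simpa using h0 T n))
    exact ⟨L, by simpa using h2, h3⟩
  choose L h2 h3 using h1
  exact ⟨LinearMap.mkContinuous ⟨⟨L, fun S T => tendsto_nhds_unique (h3 _) ((h3 S).add (h3 T))⟩,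
    fun c T => tendsto_nhds_unique (h3 _) ((h3 T).const_smul c)⟩ 1 fun T => by simpa using h2 T, h3⟩

end Pool.Agent.H.MP_94b2f9_an
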