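import Pool.Agent.H.MP_94b2f9_an.A

set_option autoImplicit false

open Filter Topology Set
open scoped ENNReal Nat

namespace Pool.Agent.H.MP_94b2f9_an

variable {p : ℝ≥0∞} [Fact (1 ≤ p)]

theorem e_apply (n i : ℕ) : e p n i = if i = n then 1 else 0 := by
  simp [e, lp.single_apply, Pi.single_apply]

theorem norm_step (hp : p ≠ ⊤) (u : X p) (t : ℝ) (n : ℕ) :
    ‖u + t • e p n‖ ^ p.toReal - ‖u‖ ^ p.toReal = |u n + t| ^ p.toReal - |u n| ^ p.toReal := by
  have h1 := zero_lt_one.trans_le (p_one hp)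
  refine ((lp.hasSum_norm h1 (u + t • e p n)).sub (lp.hasSum_norm h1 u)).unique ?_
  have := hasSum_single (f := fun i => ‖(u + t • e p n) i‖ ^ p.toReal - ‖u i‖ ^ p.toReal) n
    fun i hi => by simp [e_apply, hi]
  simpa [e_apply] using this

theorem coord (hp : p ≠ ⊤) (u : X p) : Tendsto (fun n => u n) atTop (𝓝 0) := by
  have h1 := zero_lt_one.trans_le (p_one hp)
  have := (lp.hasSum_norm h1 u).summable.tendsto_atTop_zero.rpow_const (p := p.toReal⁻¹)
    (.inr (by positivity))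
  rw [Real.zero_rpow (by positivity)] at this
  simp only [Real.rpow_rpow_inv (norm_nonneg _) h1.ne'] at this
  exact tendsto_zero_iff_norm_tendsto_zero.2 this

theorem subgrad (hp : p ≠ ⊤) (z : X p) {δ : ℝ} (hδ : 0 < δ) : ∃ J : X p →L[ℝ] ℝ,
    ‖J‖ ≤ p.toReal * ‖z‖ ^ (p.toReal - 1) ∧ ∀ᶠ n in atTop, ∀ y : X p,
      ‖z‖ ^ p.toReal - δ + J (y - z) + |y n| ^ p.toReal ≤ ‖y‖ ^ p.toReal := by
  have h0 := p_one hp
  have h1 := zero_lt_one.trans_le h0
  obtain ⟨F, hF⟩ := ((lp.hasSum_norm h1 z).eventually (lt_mem_nhds (sub_lt_self _ hδ))).exists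
  let P : X p →L[ℝ] X p := ∑ i ∈ F, (lp.evalCLM ℝ _ p i).smulRight (e p i)
  have h2 : ∀ y : X p, ‖P y‖ ^ p.toReal = ∑ i ∈ F, ‖y i‖ ^ p.toReal := fun y => by
    rw [← lp.norm_sum_single h1 y F]
    simp only [P, _root_.sum_apply, ContinuousLinearMap.smulRight_apply, e, ← lp.single_smul,
      smul_eq_mul, mul_one]
    rfl
  have h3 : ∀ y : X p, ‖P y‖ ≤ ‖y‖ := fun y => by
    rw [← Real.rpow_le_rpow_iff (norm_nonneg _) (norm_nonneg _) h1, h2]
    exact lp.sum_rpow_le_norm_rpow h1 y F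
  obtain ⟨l, h4, h5⟩ := exists_dual_vector'' ℝ (P z)
  refine ⟨(p.toReal * ‖P z‖ ^ (p.toReal - 1)) • (l ∘L P), ?_, ?_⟩
  · refine ContinuousLinearMap.opNorm_le_bound _ (by positivity) fun y => ?_
    rw [_root_.smul_apply, norm_smul, Real.norm_of_nonneg (by positivity)]
    have : ‖l (P y)‖ ≤ ‖y‖ := (l.le_of_opNorm_le h4 (P y)).trans (by rw [one_mul]; exact h3 y)
    exact mul_le_mul (mul_le_mul_of_nonneg_left (Real.rpow_le_rpow (norm_nonneg _) (h3 z)
      (by linarith)) h1.le) this (norm_nonneg _) (by positivity)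
  · filter_upwards [F.eventually_cofinite_notMem.filter_mono Nat.cofinite_eq_atTop.ge] with n hn y
    have h6 := lp.sum_rpow_le_norm_rpow h1 y (insert n F)
    rw [Finset.sum_insert hn, ← h2] at h6
    rw [← h2] at hF
    have h7 : l (P y) ≤ ‖P y‖ := (le_abs_self _).trans (by simpa using l.le_of_opNorm_le h4 (P y))
    have h8 : ‖P z‖ ^ p.toReal + p.toReal * ‖P z‖ ^ (p.toReal - 1) * (‖P y‖ - ‖P z‖) ≤
        ‖P y‖ ^ p.toReal := by
      rcases (norm_nonneg (P z)).eq_or_lt with h | h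
      · rw [← h, Real.zero_rpow h1.ne']
        rcases h0.eq_or_lt with h9 | h9
        · simp [← h9]
        · rw [Real.zero_rpow (by linarith)]; simp; positivity
      · have h9 := one_add_mul_self_le_rpow_one_add (s := ‖P y‖ / ‖P z‖ - 1)
          (by have : 0 ≤ ‖P y‖ / ‖P z‖ := by positivity
              linarith) h0
        rw [add_sub_cancel, Real.div_rpow (norm_nonneg _) h.le, le_div_iff₀ (by positivity)] at h9
        refine le_trans (le_of_eq ?_) h9
        rw [Real.rpow_sub_one h.ne']; field_simp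
    have h9 : 0 ≤ p.toReal * ‖P z‖ ^ (p.toReal - 1) := by positivity
    simp only [_root_.smul_apply, ContinuousLinearMap.comp_apply, map_sub, h5, smul_eq_mul,
      RCLike.ofReal_real_eq_id, id] at h6 ⊢
    rw [Real.norm_eq_abs] at h6
    nlinarith

theorem low (hp : p ≠ ⊤) (hne : ∀ k : ℕ, p.toReal ≠ 2 * k) {g : X p → ℝ}
    (x : X p) (t : ℝ) (ht : 0 < t) {η : ℝ} (hη : 0 < η) : ∀ᶠ n in atTop, ∃ s : ℝ, (s = 1 ∨ s = -1) ∧
      -η ≤ ∑ k ∈ Finset.range ⌊p.toReal⌋₊, ((k + 1)! : ℝ)⁻¹ *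
        iteratedFDeriv ℝ (k + 1) g x fun _ => (s * t) • e p n := by
  set a : ℕ → ℕ → ℝ := fun k n => iteratedFDeriv ℝ (k + 1) g x fun _ => e p n
  have h1 : Tendsto (fun n => ∑ k ∈ Finset.range ⌊p.toReal⌋₊,
      if (k + 1 : ℕ) < p.toReal then t ^ (k + 1) * |a k n| else 0) atTop (𝓝 0) := by
    have := tendsto_finset_sum (Finset.range ⌊p.toReal⌋₊) fun k _ => show Tendsto
      (fun n => if (k + 1 : ℕ) < p.toReal then t ^ (k + 1) * |a k n| else 0) atTop (𝓝 0) by
        split_ifs with h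
        · simpa using (diag_lim hp k h _).abs.const_mul (t ^ (k + 1))
        · exact tendsto_const_nhds
    simpa using this
  filter_upwards [h1.eventually (gt_mem_nhds hη)] with n hn
  obtain ⟨s, h2, h3⟩ : ∃ s : ℝ, (s = 1 ∨ s = -1) ∧ 0 ≤ s * a (⌊p.toReal⌋₊ - 1) n := by
    rcases le_total 0 (a (⌊p.toReal⌋₊ - 1) n) with h | h
    · exact ⟨1, .inl rfl, by simpa using h⟩
    · exact ⟨-1, .inr rfl, by simpa using h⟩
  refine ⟨s, h2, (neg_le_neg hn.le).trans ?_⟩
  rw [← Finset.sum_neg_distrib]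
  refine Finset.sum_le_sum fun k hk => ?_
  rw [ContinuousMultilinearMap.map_smul_univ, Finset.prod_const, Finset.card_univ,
    Fintype.card_fin, smul_eq_mul]
  have h4 : (0 : ℝ) < ((k + 1)! : ℝ)⁻¹ := by positivity
  have h5 : ((k + 1)! : ℝ)⁻¹ ≤ 1 := inv_le_one_of_one_le₀ (by exact_mod_cast (k + 1).factorial_pos)
  split_ifs with h
  · have h6 : |(s * t) ^ (k + 1) * a k n| = t ^ (k + 1) * |a k n| := by
      rw [abs_mul, abs_pow, abs_mul, abs_of_pos ht]
      rcases h2 with rfl | rfl <;> simp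
    have h7 := neg_abs_le ((s * t) ^ (k + 1) * a k n)
    have h8 := abs_nonneg ((s * t) ^ (k + 1) * a k n)
    rw [← h6]
    change _ ≤ _ * (_ * a k n)
    nlinarith
  · have h6 : ((k + 1 : ℕ) : ℝ) ≤ p.toReal :=
      (Nat.le_floor_iff ENNReal.toReal_nonneg).1 (Finset.mem_range.1 hk)
    have h7 := le_antisymm h6 (not_lt.1 h)
    have h8 : Odd (k + 1) := Nat.not_even_iff_odd.1 fun ⟨m, hm⟩ => hne m (by
      rw [← h7, hm]; push_cast; ring)
    rw [← h7, Nat.floor_natCast, Nat.add_sub_cancel] at h3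
    have h9 : s ^ (k + 1) = s := by rcases h2 with rfl | rfl <;> simp [h8.neg_one_pow]
    rw [mul_pow, h9, neg_zero, mul_right_comm s]
    positivity

theorem step (hp : p ≠ ⊤) (hne : ∀ k : ℕ, p.toReal ≠ 2 * k) {H : X p → X p}
    (hH : ContDiff ℝ (⊤ : ℕ∞) H) {θ : X p → ℝ} (hθ : ContDiff ℝ (⊤ : ℕ∞) θ) (m : X p)
    (h : ∃ᶠ n in atTop, 3 / 8 ≤ fderiv ℝ H m (e p n) n) : ∃ t : ℝ, 0 < t ∧ ∃ᶠ n in atTop,
      ∃ s : ℝ, (s = 1 ∨ s = -1) ∧ (t / 8) ^ p.toReal / 4 ≤
        ‖H (m + (s * t) • e p n)‖ ^ p.toReal + θ (m + (s * t) • e p n) -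
          (‖H m‖ ^ p.toReal + θ m) := by
  have h0 := p_one hp
  have h1 := zero_lt_one.trans_le h0
  set q := ⌊p.toReal⌋₊
  obtain ⟨C, r, hC, hr, h2⟩ := taylor hH m q
  obtain ⟨C', r', hC', hr', h3⟩ := taylor hθ m q
  obtain ⟨r'', hr'', h4⟩ := Metric.eventually_nhds_iff.1 ((hasFDerivAt_iff_isLittleO_nhds_zero.1
    (hH.differentiable (by simp) m).hasFDerivAt).def (show (0 : ℝ) < 1 / 8 by norm_num))
  set K := p.toReal * ‖H m‖ ^ (p.toReal - 1) * C + C'
  have h5 : Tendsto (fun t : ℝ => K * t ^ ((q + 1 : ℕ) - p.toReal)) (𝓝[>] 0) (𝓝 0) := by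
    have h6 : 0 < (q + 1 : ℕ) - p.toReal := by
      push_cast; linarith [Nat.lt_floor_add_one p.toReal]
    have := ((Real.continuousAt_rpow_const 0 _ (.inr h6.le)).tendsto.const_mul K).mono_left
      (nhdsWithin_le_nhds (s := Ioi 0))
    rwa [Real.zero_rpow h6.ne', mul_zero] at this
  obtain ⟨t, h6, h7, ht⟩ := ((h5.eventually (gt_mem_nhds (show 0 < (1 / 8) ^ p.toReal / 4 by
    positivity))).and (((gt_mem_nhds (lt_min hr (lt_min hr' hr''))).filter_mono nhdsWithin_le_nhds).and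
      self_mem_nhdsWithin)).exists
  simp only [lt_min_iff] at h7
  replace ht : 0 < t := ht
  have hd : 0 < (t / 8) ^ p.toReal / 4 := by positivity
  have h8 : K * t ^ (q + 1) ≤ (t / 8) ^ p.toReal / 4 := by
    rw [Real.rpow_sub ht, Real.rpow_natCast, ← mul_div_assoc, div_lt_iff₀ (by positivity)] at h6
    rw [div_eq_inv_mul t, Real.mul_rpow (by positivity) ht.le, ← one_div]
    linarith
  obtain ⟨J, h9, h10⟩ := subgrad hp (H m) hd
  refine ⟨t, ht, (h.and_eventually (h10.and ((low hp hne (g := fun y => J (H y) + θ y) m t ht hd).and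
    ((coord hp (H m)).abs.eventually (gt_mem_nhds (show |0| < t / 8 by simpa using ht)))))).mono ?_⟩
  rintro n ⟨a1, a2, ⟨s, a3, a4⟩, a5⟩
  refine ⟨s, a3, ?_⟩
  set v := (s * t) • e p n with hv
  have b0 : |s| = 1 := by rcases a3 with rfl | rfl <;> simp
  have b1 : ‖v‖ = t := by
    rw [hv, norm_smul, norm_e, mul_one, Real.norm_eq_abs, abs_mul, b0, one_mul, abs_of_pos ht]
  have b2 := J.le_of_opNorm_le_of_le h9 (h2 v (by linarith))
  have b3 := h3 v (by linarith)
  have b4 : ∀ k : ℕ, iteratedFDeriv ℝ k (fun y => J (H y) + θ y) m (fun _ => v) =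
      J (iteratedFDeriv ℝ k H m fun _ => v) + iteratedFDeriv ℝ k θ m fun _ => v := fun k => by
    have c1 : ContDiffAt ℝ k H m := (hH.of_le (by exact_mod_cast le_top)).contDiffAt
    have c2 : ContDiffAt ℝ k (fun y => J (H y)) m := J.contDiff.contDiffAt.comp m c1
    rw [fun_iteratedFDeriv_add_apply c2
      (hθ.of_le (by exact_mod_cast le_top)).contDiffAt, ContinuousMultilinearMap.add_apply]
    congr 1
    exact congrArg (fun A => A fun _ => v) (J.iteratedFDeriv_comp_left c1 le_rfl)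
  simp only [b4, mul_add, Finset.sum_add_distrib] at a4
  rw [Finset.sum_range_succ', Real.norm_eq_abs, b1] at b2 b3
  simp only [map_sub, map_add, map_sum, map_smul, smul_eq_mul, Nat.factorial_zero, Nat.cast_one,
    inv_one, one_mul, iteratedFDeriv_zero_apply] at b2 b3
  have b5 := (lp.norm_apply_le_norm (zero_lt_one.trans_le Fact.out).ne' _ n).trans
    (h4 (y := v) (by simpa [b1] using h7.2.2))
  rw [b1, lp.coeFn_sub, lp.coeFn_sub, Pi.sub_apply, Pi.sub_apply, hv, map_smul, lp.coeFn_smul,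
    Pi.smul_apply, ← hv, Real.norm_eq_abs, smul_eq_mul, abs_le] at b5
  have b6 : t / 8 ≤ |H (m + v) n| := by
    rw [abs_lt] at a5
    rw [le_abs]
    rcases a3 with rfl | rfl
    · left; nlinarith
    · right; nlinarith
  have b7 := Real.rpow_le_rpow (by positivity) b6 h1.le
  have b8 := a2 (H (m + v))
  rw [map_sub] at b8
  have b9 := (abs_le.1 b2).1
  have b10 := (abs_le.1 b3).1
  simp only [K] at h8
  linarith

theorem main (hp : p ≠ ⊤) (hne : ∀ k : ℕ, p.toReal ≠ 2 * k) {H : X p → X p}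
    (hH : ContDiff ℝ (⊤ : ℕ∞) H) {M : ℝ} (hM : ∀ x, ‖H x‖ ≤ M) (hid : H =ᶠ[𝓝 0] id) : False := by
  have h0 := p_one hp
  have h1 := zero_lt_one.trans_le h0
  obtain ⟨Λ, hΛ⟩ := exLam (p := p)
  set ψ : X p → ℝ := fun y => Λ (fderiv ℝ H y) with hψ
  have hψ1 : ContDiff ℝ (⊤ : ℕ∞) ψ :=
    Λ.contDiff.comp (hH.fderiv_right (m := (⊤ : ℕ∞)) (by simp))
  have hψ0 : ψ 0 = 1 := by
    have := hΛ (fderiv ℝ H 0)
    rw [hid.fderiv_eq, fderiv_id] at this
    rw [hψ]
    simp only [hid.fderiv_eq, fderiv_id]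
    exact tendsto_nhds_unique this (by simp [e_apply])
  have hM' : ∀ x, ‖H x‖ ^ p.toReal ≤ M ^ p.toReal := fun x =>
    Real.rpow_le_rpow (norm_nonneg _) (hM x) h1.le
  have hM0 : 0 ≤ M ^ p.toReal := le_trans (by positivity) (hM' 0)
  have ha : Real.arctan (1 / 2) < Real.arctan 1 := Real.arctan_strictMono (by norm_num)
  set K := (M ^ p.toReal + 1) / (Real.arctan 1 - Real.arctan (1 / 2)) with hK
  have hK0 : 0 < K := div_pos (by linarith) (by linarith)
  have hθ : ContDiff ℝ (⊤ : ℕ∞) fun y => K * Real.arctan (ψ y) :=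
    contDiff_const.mul (Real.contDiff_arctan.comp hψ1)
  set Φ : X p → ℝ := fun y => ‖H y‖ ^ p.toReal + K * Real.arctan (ψ y) with hΦ
  have hΦc : Continuous Φ :=
    (hH.continuous.norm.rpow_const fun _ => .inr h1.le).add hθ.continuous
  set c : ℝ := (1 / 16) ^ p.toReal / 4
  have hc : 0 < c := by positivity
  set f : X p × X p → ℝ := fun a => ‖a.1‖ ^ p.toReal + ‖a.2‖ ^ p.toReal with hf
  have hfc : Continuous f := (continuous_fst.norm.rpow_const fun _ => .inr h1.le).add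
    (continuous_snd.norm.rpow_const fun _ => .inr h1.le)
  have hf0 : f 0 = 0 := by simp [hf, h1.ne']
  have hB : ∀ y, Φ y ≤ M ^ p.toReal + K * 2 := fun y => by
    have := Real.arctan_lt_pi_div_two (ψ y)
    have := Real.pi_le_four
    have := hM' y
    simp only [hΦ]; nlinarith
  obtain ⟨m, ⟨m1, m2, m3⟩, hm⟩ := bb (fun a b : X p × X p => (∀ i, a.1 i ≤ b.1 i) ∧
    (∀ i, a.2 i ≤ b.2 i) ∧ c * (f b - f a) ≤ Φ (b.1 - b.2) - Φ (a.1 - a.2))
    (fun a => ⟨fun _ => le_rfl, fun _ => le_rfl, by simp⟩)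
    (fun a b c h h' => ⟨fun i => (h.1 i).trans (h'.1 i), fun i => (h.2.1 i).trans (h'.2.1 i),
      by linarith [h.2.2, h'.2.2]⟩) f 0 ((M ^ p.toReal + K * 2 - Φ 0) / c)
    (fun b hb => by
      have := hb.2.2
      rw [hf0, sub_zero, Prod.fst_zero, Prod.snd_zero, sub_self] at this
      rw [le_div_iff₀ hc]; linarith [hB (b.1 - b.2)])
    (fun x hx h => by
      have h2 : ∀ n k, c * (f (x (n + k)) - f (x n)) ≤
          Φ ((x (n + k)).1 - (x (n + k)).2) - Φ ((x n).1 - (x n).2) := fun n k => by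
        induction k with
        | zero => simp
        | succ k ih => rw [← add_assoc]; linarith [(h (n + k)).2.2]
      have h3 : ∀ n, f (x n) ≤ (M ^ p.toReal + K * 2 - Φ 0) / c := fun n => by
        have := h2 0 n
        have h4 := hx.2.2
        rw [hf0, sub_zero, Prod.fst_zero, Prod.snd_zero, sub_self] at h4
        rw [zero_add] at this
        rw [le_div_iff₀ hc]; linarith [hB ((x n).1 - (x n).2)]
      obtain ⟨u, h4, h5⟩ := conv hp (fun n => (x n).1) hx.1 (fun n => (h n).1) _ fun n =>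
        le_trans (le_add_of_nonneg_right (by positivity)) (h3 n)
      obtain ⟨v, h6, h7⟩ := conv hp (fun n => (x n).2) hx.2.1 (fun n => (h n).2.1) _ fun n =>
        le_trans (le_add_of_nonneg_left (by positivity)) (h3 n)
      refine ⟨(u, v), fun n => ⟨h5 n, h7 n, ?_⟩⟩
      refine le_of_tendsto_of_tendsto
        ((((hfc.tendsto _).comp (h4.prodMk_nhds h6)).sub_const (f (x n))).const_mul c)
        (((hΦc.tendsto _).comp (h4.sub h6)).sub_const (Φ ((x n).1 - (x n).2)))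
        (eventually_atTop.2 ⟨n, fun k hk => ?_⟩)
      obtain ⟨k, rfl⟩ := Nat.exists_eq_add_of_le hk
      exact h2 n k)
    (fun a b h h' => by
      have h2 := sub_le hp h.1 h'.1
      have h3 := sub_le hp h.2.1 h'.2.1
      have : 0 ≤ ‖b.1 - a.1‖ ^ p.toReal := by positivity
      have : 0 ≤ ‖b.2 - a.2‖ ^ p.toReal := by positivity
      simp only [hf]; linarith)
  have h2 : 3 / 8 < ψ (m.1 - m.2) := by
    have h3 : 0 ≤ f m := by positivity
    rw [hf0, sub_zero, Prod.fst_zero, Prod.snd_zero, sub_self] at m3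
    have h4 : K * (Real.arctan 1 - Real.arctan (1 / 2)) = M ^ p.toReal + 1 := by
      rw [hK, mul_comm, mul_div_cancel₀ _ (by linarith)]
    have h5 : 0 ≤ ‖H 0‖ ^ p.toReal := by positivity
    have h6 : Real.arctan (1 / 2) < Real.arctan (ψ (m.1 - m.2)) := by
      refine lt_of_mul_lt_mul_left ?_ hK0.le
      simp only [hΦ, hψ0] at m3
      nlinarith [hM' (m.1 - m.2)]
    linarith [Real.arctan_strictMono.lt_iff_lt.1 h6]
  obtain ⟨t, ht, h3⟩ := step hp hne hH hθ (m.1 - m.2)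
    ((((hΛ _).eventually (lt_mem_nhds h2)).frequently.mono fun _ h => h.le).filter_mono
      Nat.hyperfilter_le_atTop)
  obtain ⟨n, ⟨s, h4, h5⟩, h6, h7⟩ := (h3.and_eventually (((coord hp m.1).eventually
    (gt_mem_nhds ht)).and ((coord hp m.2).eventually (gt_mem_nhds ht)))).exists
  have key : ∀ u : X p, 0 ≤ u n → u n < t →
      0 < ‖u + t • e p n‖ ^ p.toReal - ‖u‖ ^ p.toReal ∧
      c * (‖u + t • e p n‖ ^ p.toReal - ‖u‖ ^ p.toReal) ≤ (t / 8) ^ p.toReal / 4 := fun u a b => by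
    rw [norm_step hp, abs_of_nonneg a, abs_of_pos (by linarith)]
    refine ⟨sub_pos.2 (Real.rpow_lt_rpow a (by linarith) h1), ?_⟩
    have h8 := Real.rpow_le_rpow (by linarith) (show u n + t ≤ 2 * t by linarith) h1.le
    have h9 : 0 ≤ u n ^ p.toReal := by positivity
    have h10 : c * (2 * t) ^ p.toReal = (t / 8) ^ p.toReal / 4 := by
      rw [div_mul_eq_mul_div, ← Real.mul_rpow (by norm_num) (by linarith)]
      congr 2; ring
    nlinarith
  have hle : ∀ (u : X p) i, u i ≤ (u + t • e p n) i := fun u i => by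
    simp only [lp.coeFn_add, lp.coeFn_smul, Pi.add_apply, Pi.smul_apply, e_apply, smul_eq_mul]
    split_ifs <;> linarith
  rcases h4 with rfl | rfl
  · have := hm (m.1 + t • e p n, m.2) ⟨hle _, fun _ => le_rfl, by
      rw [one_mul, sub_add_eq_add_sub] at h5
      simp only [hf]; linarith [(key m.1 (m1 n) h6).2]⟩
    simp only [hf] at this; linarith [(key m.1 (m1 n) h6).1]
  · have := hm (m.1, m.2 + t • e p n) ⟨fun _ => le_rfl, hle _, by
      rw [neg_one_mul, neg_smul, ← sub_eq_add_neg, sub_sub] at h5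
      simp only [hf]; linarith [(key m.2 (m2 n) h7).2]⟩
    simp only [hf] at this; linarith [(key m.2 (m2 n) h7).1]

end Pool.Agent.H.MP_94b2f9_an
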